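import Pool.Agent.Y119.HY.Fin2
import Pool.Agent.P8H40.HA.Sp

/-!
# The entries of the holomorphic part of the hypergeometric period matrix: `n (n + 1) / 2` independent ones
-/

set_option autoImplicit false

open PowerSeries Pool.Agent.Y113

namespace Pool.Agent.P8H40.HA

open Pool.Agent.Y119.HY (QD Am Jm cm E E_isom E_mul_neg Hf Hc Yf)
open Pool.Agent.Y119.HZ (Hp Wp hf ix evq)

variable {n : ℕ} {Q : Polynomial ℚ}

lemma Yf_form (hQ : QD n Q) {x : ℝ} (h0 : 0 < x) (h1 : x < 1) :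
    (Yf (cm (Am n)) (Hc n Q) (x : ℂ)).transpose * cm (Jm n Q) * Yf (cm (Am n)) (Hc n Q) (x : ℂ) = cm (Jm n Q) := by
  refine Pool.Agent.Y119.HY.self_pair Pool.Agent.Y119.HY.Ac_nil Pool.Agent.Y119.HY.Jc_rel ?_ (Pool.Agent.Y119.HY.sol_c hQ)
    (Pool.Agent.Y119.HY.real_mem_Lens h0 h1)
  rw [← Pool.Agent.Y119.HY.cm_transpose, ← Pool.Agent.Y119.HY.cm_mul, ← Pool.Agent.Y119.HY.cm_mul,
    ← Pool.Agent.Y119.HY.cm_add, Pool.Agent.Y119.HZ.Bm_rel hQ, Pool.Agent.Y119.HY.cm_zero]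

lemma Hf_form (hQ : QD n Q) {x : ℝ} (h0 : 0 < x) (h1 : x < 1) :
    (Hf (Hc n Q) (x : ℂ)).transpose * cm (Jm n Q) * Hf (Hc n Q) (x : ℂ) = cm (Jm n Q) := by
  have hN : cm (Am n) ^ n = 0 := Pool.Agent.Y119.HY.Ac_nil
  have e1 : Hf (Hc n Q) (x : ℂ) = Yf (cm (Am n)) (Hc n Q) (x : ℂ) * E (cm (Am n)) (-Complex.log x) := by
    unfold Yf
    rw [Matrix.mul_assoc, E_mul_neg hN, Matrix.mul_one]
  rw [e1]
  exact Pool.Agent.Y119.HZ.isom_mul (Yf_form hQ h0 h1) (E_isom hN Pool.Agent.Y119.HY.Jc_rel _)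

/-- **Independent entries.** -/
theorem ind (hQ : QD n Q) : ∃ T : Fin (n * (n + 1) / 2) → Fin n × Fin n,
    AlgebraicIndependent (Polynomial ℚ) (fun i => Hp n Q (T i).1 (T i).2) := by
  obtain ⟨T, hT⟩ := exists_coords (cm (Jm n Q)) (Pool.Agent.Y119.HY.Jc_skew hQ) (Pool.Agent.Y119.HY.Jc_det hQ)
  refine ⟨T, ?_⟩
  rw [algebraicIndependent_iff]
  intro R₀ hR₀
  by_contra hne
  obtain ⟨s, hs⟩ : ∃ s, R₀.coeff s ≠ 0 := by
    by_contra hcon
    push Not at hcon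
    exact hne (MvPolynomial.ext _ _ fun s => by rw [hcon s, MvPolynomial.coeff_zero])
  -- a point which is not a zero of the coefficient
  obtain ⟨x, hx0, hx1, hx⟩ : ∃ x : ℝ, 0 < x ∧ x < 1 ∧ evq (x : ℂ) (R₀.coeff s) ≠ 0 := by
    by_contra hcon
    push Not at hcon
    have h1 : ((R₀.coeff s).map (algebraMap ℚ ℂ)) = 0 := by
      refine Polynomial.eq_zero_of_infinite_isRoot _ ?_
      have h2 : Set.Infinite ((fun x : ℝ => (x : ℂ)) '' Set.Ioo (0 : ℝ) 1) :=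
        (Set.Ioo_infinite one_pos).image Complex.ofReal_injective.injOn
      refine h2.mono ?_
      rintro _ ⟨x, hx, rfl⟩
      show Polynomial.eval _ _ = 0
      rw [Polynomial.eval_map_algebraMap]
      exact hcon x hx.1 hx.2
    exact hs ((Polynomial.map_eq_zero (algebraMap ℚ ℂ)).1 h1)
  set P : MvPolynomial (Fin (n * (n + 1) / 2)) ℂ := MvPolynomial.map (evq (x : ℂ)) R₀ with hP
  have hP0 : P ≠ 0 := by
    intro h
    apply hx
    rw [← MvPolynomial.coeff_map, ← hP, h, MvPolynomial.coeff_zero]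
  obtain ⟨g, hg, hgP⟩ := hT P hP0
  obtain ⟨W, hW1, -, hW⟩ := Pool.Agent.Y119.HZ.isom_inv (Pool.Agent.Y119.HY.Jc_det hQ) (Hf_form hQ hx0 hx1)
  apply hgP
  have h1 := Pool.Agent.Y119.HZ.rel_inv hQ (R := MvPolynomial.rename (fun i => (ix n).symm (T i)) R₀) (by
    rw [MvPolynomial.aeval_rename, ← hR₀]
    congr 2
    funext i
    show hf n Q ((ix n).symm (T i)) = _
    unfold hf
    rw [Equiv.apply_symm_apply]) hx0 hx1 (κ := W * g) (Pool.Agent.Y119.HZ.isom_mul hW hg)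
  rw [MvPolynomial.eval₂_rename, ← Matrix.mul_assoc, hW1, Matrix.one_mul] at h1
  rw [hP, MvPolynomial.eval_map, ← h1]
  congr 1
  funext i
  simp only [Function.comp_apply, Equiv.apply_symm_apply]

end Pool.Agent.P8H40.HA
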