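import Pool.Agent.P8H40.HA.Ctg2

/-!
# Values
-/

set_option autoImplicit false

open PowerSeries Pool.Agent.Y113

namespace Pool.Agent.P8H40.HA

open Pool.Agent.Y119.HY (QD Am Jm cm E kx aq hq Hq hps Hf Hc Yf QB)
open Pool.Agent.Y119.HZ (Hp Wp hf ix evq km km_apply th ode_Hp)

variable {n m : ℕ}

/-- the values at `1 / x` -/
noncomputable def Vx (Z : Matrix (Fin n) (Fin n) ℚ⟦X⟧) (x : ℝ) : Matrix (Fin n) (Fin n) ℂ :=
  Matrix.of fun i j => ((ev x (Z i j) : ℝ) : ℂ)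

lemma Cv_geom {x : ℝ} (hx : 1 < x) : Cv x (PowerSeries.mk 1 : ℚ⟦X⟧) := by
  refine Cv.of_bound (A := 1) (B := 1) (by linarith) zero_le_one hx fun m => ?_
  rw [coeff_mk]
  simp

lemma ev_one_sub {x : ℝ} : ev x (1 - X : ℚ⟦X⟧) = 1 - 1 / x := by
  rw [← coe_sub, ev_coe]
  simp

lemma Cv_one_sub {x : ℝ} : Cv x (1 - X : ℚ⟦X⟧) := by
  rw [← coe_sub]
  exact Cv.coe _

/-- convergence of the entries -/
lemma Cv_Ha {α : Fin m → ℚ} (hQ : QD (2 * m) (QB α)) (hα : ∀ j, α j ≠ 0) {x : ℝ} (hx : 1 < x) (i j : Fin (2 * m)) :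
    Cv x (Ha α i j) := by
  have hx0 : 0 < x := by linarith
  obtain ⟨e, G, h, -⟩ := gauge α hQ hα
  have h1 : ∀ k, ∑ l, Ha α i l * C (Pm (2 * m) (M0 α) l k) =
      (PowerSeries.mk 1 : ℚ⟦X⟧) ^ e * ∑ l, (G i l : ℚ⟦X⟧) * Hp (2 * m) (QB α) l k := by
    intro k
    rw [← h, ← mul_assoc, ← mul_pow, PowerSeries.mk_one_mul_one_sub_eq_one, one_pow, one_mul]
  have h2 : Ha α i j = ∑ k, (∑ l, Ha α i l * C (Pm (2 * m) (M0 α) l k)) * C (Pm (2 * m) (M0 α)⁻¹ k j) := by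
    have h3 : ∀ l, ∑ k, C (Pm (2 * m) (M0 α) l k) * C (Pm (2 * m) (M0 α)⁻¹ k j) = (if l = j then 1 else 0 : ℚ⟦X⟧) := by
      intro l
      have h4 := congrFun (congrFun (Pm_inv α hα) l) j
      rw [Matrix.mul_apply, Matrix.one_apply] at h4
      have h5 := congrArg (C (R := ℚ)) h4
      rw [map_sum] at h5
      simp only [map_mul] at h5
      rw [h5]
      split_ifs <;> simp
    simp only [Finset.sum_mul, mul_assoc]
    rw [Finset.sum_comm]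
    simp only [← Finset.mul_sum, h3]
    simp
  rw [h2]
  refine Cv.sum hx0 _ _ fun k _ => Cv.mul hx0 ?_ (Cv.C _)
  rw [h1]
  refine Cv.mul hx0 (Cv.pow hx0 (Cv_geom hx) e) ?_
  exact Cv.sum hx0 _ _ fun l _ => Cv.mul hx0 (Cv.coe _) (Pool.Agent.Y119.HZ.Cv_Hp hQ hx _ _)

/-- **the gauge transformation at the values** -/
theorem val_gauge {α : Fin m → ℚ} (hQ : QD (2 * m) (QB α)) (hα : ∀ j, α j ≠ 0) :
    ∃ (e : ℕ) (G : Matrix (Fin (2 * m)) (Fin (2 * m)) (Polynomial ℚ)), Polynomial.eval 0 G.det ≠ 0 ∧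
      ∀ (q : ℚ) (x : ℝ), 1 < x → (q : ℝ) = 1 / x →
        ((1 - (q : ℂ)) ^ e) • (Vx (Ha α) x * cm (Pm (2 * m) (M0 α))) =
          (G.map (Polynomial.eval q)).map (algebraMap ℚ ℂ) * Vx (Hp (2 * m) (QB α)) x := by
  obtain ⟨e, G, h, hG⟩ := gauge α hQ hα
  refine ⟨e, G, hG, fun q x hx hq => ?_⟩
  have hx0 : 0 < x := by linarith
  ext i j
  have hc1 : ∀ l, Cv x (Ha α i l * C (Pm (2 * m) (M0 α) l j)) := fun l => Cv.mul hx0 (Cv_Ha hQ hα hx i l) (Cv.C _)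
  have hc2 : ∀ l, Cv x ((G i l : ℚ⟦X⟧) * Hp (2 * m) (QB α) l j) := fun l =>
    Cv.mul hx0 (Cv.coe _) (Pool.Agent.Y119.HZ.Cv_Hp hQ hx _ _)
  have h1 := congrArg (ev x) (h i j)
  rw [Cv.ev_mul hx0 (Cv.pow hx0 Cv_one_sub e) (Cv.sum hx0 _ _ fun l _ => hc1 l), Cv.ev_pow hx0 Cv_one_sub,
    Cv.ev_sum hx0 _ _ (fun l _ => hc1 l), Cv.ev_sum hx0 _ _ (fun l _ => hc2 l), ev_one_sub] at h1
  have h2 : ∀ l, ev x (Ha α i l * C (Pm (2 * m) (M0 α) l j)) = ev x (Ha α i l) * (Pm (2 * m) (M0 α) l j : ℚ) := fun l => by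
    rw [Cv.ev_mul hx0 (Cv_Ha hQ hα hx i l) (Cv.C _), ev_C]
  have h3 : ∀ l, ev x ((G i l : ℚ⟦X⟧) * Hp (2 * m) (QB α) l j) =
      ((Polynomial.eval q (G i l) : ℚ) : ℝ) * ev x (Hp (2 * m) (QB α) l j) := fun l => by
    rw [Cv.ev_mul hx0 (Cv.coe _) (Pool.Agent.Y119.HZ.Cv_Hp hQ hx _ _), ev_coe, ← hq]
    congr 1
    have h4 : (q : ℝ) = algebraMap ℚ ℝ q := rfl
    rw [h4, Polynomial.aeval_algebraMap_apply]
    rfl
  simp only [h2, h3] at h1
  rw [← hq] at h1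
  have h5 := congrArg (fun y : ℝ => (y : ℂ)) h1
  simp only [Complex.ofReal_mul, Complex.ofReal_pow, Complex.ofReal_sub, Complex.ofReal_one, Complex.ofReal_sum] at h5
  rw [Matrix.smul_apply, Matrix.mul_apply, Matrix.mul_apply, smul_eq_mul]
  have h6 : ((q : ℝ) : ℂ) = (q : ℂ) := by push_cast; rfl
  rw [h6] at h5
  refine Eq.trans ?_ (h5.trans ?_)
  · congr 1
  · refine Finset.sum_congr rfl fun l _ => ?_
    unfold Vx
    rw [Matrix.of_apply, Matrix.map_apply, Matrix.map_apply]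
    congr 1

/-- the determinant does not vanish near zero -/
lemma eval_ne (P : Polynomial ℚ) (hP : Polynomial.eval 0 P ≠ 0) (c : ℕ) :
    ∃ t₀ : ℕ, ∀ t : ℕ, t₀ ≤ t → Polynomial.eval ((c : ℚ) / t) P ≠ 0 := by
  rcases Nat.eq_zero_or_pos c with hc | hc
  · refine ⟨0, fun t _ => ?_⟩
    rw [hc, Nat.cast_zero, zero_div]
    exact hP
  have hP0 : P ≠ 0 := by
    rintro rfl
    exact hP (Polynomial.eval_zero)
  set S : Set ℕ := {t : ℕ | 0 < t ∧ Polynomial.eval ((c : ℚ) / t) P = 0} with hS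
  have hfin : S.Finite := by
    refine Set.Finite.of_finite_image (f := fun t : ℕ => (c : ℚ) / t) ?_ ?_
    · refine (P.roots.toFinset.finite_toSet).subset ?_
      rintro _ ⟨t, ht, rfl⟩
      rw [Finset.mem_coe, Multiset.mem_toFinset, Polynomial.mem_roots hP0]
      exact ht.2
    · intro t ht t' ht' h
      have h1 : (0 : ℚ) < t := by exact_mod_cast ht.1
      have h2 : (0 : ℚ) < t' := by exact_mod_cast ht'.1
      have h3 : (0 : ℚ) < c := by exact_mod_cast hc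
      simp only at h
      rw [div_eq_div_iff h1.ne' h2.ne'] at h
      have h4 : (t' : ℚ) = t := mul_left_cancel₀ h3.ne' h
      exact_mod_cast h4.symm
  obtain ⟨b, hb⟩ := hfin.bddAbove
  refine ⟨b + 1, fun t ht h => ?_⟩
  have h1 : t ∈ S := ⟨by omega, h⟩
  have := hb h1
  omega

end Pool.Agent.P8H40.HA
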