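import Pool.Agent.P8H40.HA.Main

/-!
# All tuples: the operators `θ^(2m) - c x ∏ (θ + α_j) (θ + 1 - α_j)`
-/

set_option autoImplicit false

open PowerSeries Module

namespace Pool.Agent.P8H40.HA

open Pool.Agent.Y113 (ps ev SDc)
open Pool.Agent.Y119.HY (QD Am Jm cm cm_apply cm_mul E QB)
open Pool.Agent.Y119.HZ (Hp Wp T1 A1 SDc_Wp ode_int exists_b mul_Wp)
open Pool.Agent.Results.MP_cbf1af_ag.AllTuplesDegenerating (toQ GCond val periods rank TrdegGe Bound)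

variable {n : ℕ} {Q : Polynomial ℚ}

lemma val_eq (c t : ℕ) (hc : 1 ≤ c) (ht : 1 ≤ t) : val (Zc n Q c) t = (Vx (Hp n Q) ((t : ℝ) / c)).transpose := by
  ext i j
  unfold val Vx
  rw [Matrix.of_apply, Matrix.transpose_apply, Matrix.of_apply]
  congr 1
  unfold ev
  refine tsum_congr fun a => ?_
  unfold Zc
  rw [Matrix.of_apply, coeff_rescale]
  push_cast
  have hc0 : (c : ℝ) ≠ 0 := by
    have : c ≠ 0 := by omega
    exact_mod_cast this
  have ht0 : (t : ℝ) ≠ 0 := by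
    have : t ≠ 0 := by omega
    exact_mod_cast this
  have h1 : (1 / ((t : ℝ) / c)) ^ a = (c : ℝ) ^ a * (1 / (t : ℝ)) ^ a := by
    rw [← mul_pow]
    congr 1
    field_simp
  rw [h1]
  ring

lemma exp_eq (L : ℂ) : IsNilpotent.exp (L • (Nz n).map (Int.castRingHom ℂ)) = (E (cm (Am n)) L).transpose := by
  have h1 : (Nz n).map (Int.castRingHom ℂ) = (cm (Am n)).transpose := by
    ext i j
    rw [Matrix.map_apply, Matrix.transpose_apply, cm_apply]
    have h2 : (Nz n i j : ℚ) = Am n j i := congrFun (congrFun (Nz_map n) i) j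
    rw [← h2]
    push_cast
    rfl
  have h2 : (L • (cm (Am n)).transpose) ^ n = 0 := by
    rw [smul_pow, ← Matrix.transpose_pow, Pool.Agent.Y119.HY.Ac_nil, Matrix.transpose_zero, smul_zero]
  rw [h1, IsNilpotent.exp_eq_sum h2]
  unfold E
  rw [Matrix.transpose_sum]
  refine Finset.sum_congr rfl fun i _ => ?_
  rw [Matrix.transpose_smul, Matrix.transpose_pow, smul_pow, ← algebraMap_smul ℂ ((i.factorial : ℚ)⁻¹), smul_smul]
  congr 1
  rw [map_inv₀, map_natCast]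
  ring

lemma periods_eq (Ω : Matrix (Fin n) (Fin n) ℂ) (c t : ℕ) (hc : 1 ≤ c) (ht : 1 ≤ t) :
    periods Ω.transpose (Nz n) (Zc n Q c) t =
      (Vx (Hp n Q) ((t : ℝ) / c) * E (cm (Am n)) (-((Real.log t : ℝ) : ℂ)) * Ω).transpose := by
  unfold periods
  rw [val_eq c t hc ht, exp_eq, Matrix.transpose_mul, Matrix.transpose_mul, Matrix.mul_assoc]

lemma TrdegGe.transpose {k r δ : ℕ} {K : IntermediateField ℚ ℂ} {L : Fin k → ℂ}
    {P : Fin k → Matrix (Fin n) (Fin n) ℂ} (h : TrdegGe r δ K L fun l => (P l).transpose) : TrdegGe r δ K L P := by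
  obtain ⟨σ, hσ, h⟩ := h
  refine ⟨fun i => ((σ i).1, (σ i).2.map Prod.swap), fun i j hij => hσ ?_, fun R hR h0 => h R hR ?_⟩
  · have h1 := (Prod.mk.inj hij).1
    have h2 := (Prod.mk.inj hij).2
    exact Prod.ext h1 (Option.map_injective Prod.swap_injective h2)
  · rw [← h0]
    congr 2
    funext i
    show ((σ i).2.elim (L (σ i).1) fun p => P (σ i).1 p.2 p.1) =
      (((σ i).2.map Prod.swap).elim (L (σ i).1) fun p => P (σ i).1 p.1 p.2)
    cases (σ i).2 <;> rfl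

variable {m : ℕ}

/-- the period matrix -/
noncomputable def Ya (α : Fin m → ℚ) (c t : ℕ) : Matrix (Fin (2 * m)) (Fin (2 * m)) ℂ :=
  Vx (Ha α) ((t : ℝ) / c) * E (cm (Am (2 * m))) (-((Real.log t : ℝ) : ℂ))

/-- the constant matrix of the gauge transformation -/
noncomputable def Pi (α : Fin m → ℚ) : Matrix (Fin (2 * m)) (Fin (2 * m)) ℂ := cm (Pm (2 * m) (M0 α)⁻¹)

lemma Pi_mul {α : Fin m → ℚ} (hα : ∀ j, α j ≠ 0) : cm (Pm (2 * m) (M0 α)) * Pi α = 1 := by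
  unfold Pi
  rw [← cm_mul, Pm_inv α hα, Pool.Agent.Y119.HY.cm_one]

lemma Pi_comm (α : Fin m → ℚ) (s : ℂ) : Pi α * E (cm (Am (2 * m))) s = E (cm (Am (2 * m))) s * Pi α := by
  have h1 : Commute (Pi α) (cm (Am (2 * m))) := by
    show Pi α * cm (Am (2 * m)) = cm (Am (2 * m)) * Pi α
    unfold Pi
    rw [← cm_mul, Pm_comm, cm_mul]
  unfold E
  rw [Finset.mul_sum, Finset.sum_mul]
  refine Finset.sum_congr rfl fun i _ => ?_
  rw [mul_smul_comm, smul_mul_assoc, (h1.pow_right i).eq]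

/-- the gauge transformation of the period matrices -/
theorem gauge_Ya {α : Fin m → ℚ} (hQ : QD (2 * m) (QB α)) (hα : ∀ j, α j ≠ 0) (c : ℕ) (hc : 1 ≤ c) :
    ∃ t₀ : ℕ, c < t₀ ∧ ∀ t : ℕ, t₀ ≤ t → ∃ Γ : Matrix (Fin (2 * m)) (Fin (2 * m)) ℚ, IsUnit Γ ∧
      Ya α c t = Γ.map (algebraMap ℚ ℂ) *
        (Vx (Hp (2 * m) (QB α)) ((t : ℝ) / c) * E (cm (Am (2 * m))) (-((Real.log t : ℝ) : ℂ)) * Pi α) := by
  obtain ⟨e, G, hG, h⟩ := val_gauge hQ hα
  obtain ⟨t₁, ht₁⟩ := eval_ne G.det hG c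
  refine ⟨t₁ + c + 1, by omega, fun t ht => ?_⟩
  have hc0 : (0 : ℝ) < c := by exact_mod_cast hc
  have htc : c < t := by omega
  have ht0 : (0 : ℝ) < t := by
    have : 0 < t := by omega
    exact_mod_cast this
  have hx : 1 < (t : ℝ) / c := by
    rw [lt_div_iff₀ hc0, one_mul]
    exact_mod_cast htc
  set q : ℚ := (c : ℚ) / t with hq
  have hqx : (q : ℝ) = 1 / ((t : ℝ) / c) := by
    rw [hq]
    push_cast
    field_simp
  have hq1 : 1 - q ≠ 0 := by
    intro h0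
    have h1 : (q : ℝ) = 1 := by
      have : q = 1 := by linarith
      rw [this]
      simp
    rw [hqx, div_eq_one_iff_eq (by positivity)] at h1
    linarith
  have h1 := h q ((t : ℝ) / c) hx hqx
  have hdet : (G.map (Polynomial.eval q)).det ≠ 0 := by
    have h2 := RingHom.map_det (Polynomial.evalRingHom q) G
    have h3 := ht₁ t (by omega)
    intro h4
    apply h3
    rw [← hq]
    exact h2.trans h4
  refine ⟨((1 - q) ^ e)⁻¹ • G.map (Polynomial.eval q), ?_, ?_⟩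
  · rw [Matrix.isUnit_iff_isUnit_det, Matrix.det_smul]
    exact IsUnit.mk0 _ (mul_ne_zero (pow_ne_zero _ (inv_ne_zero (pow_ne_zero _ hq1))) hdet)
  · have hq2 : (1 - (q : ℂ)) ^ e ≠ 0 := by
      refine pow_ne_zero _ ?_
      have : (1 - (q : ℂ)) = ((1 - q : ℚ) : ℂ) := by push_cast; rfl
      rw [this]
      exact_mod_cast hq1
    have h2 : Vx (Ha α) ((t : ℝ) / c) = (((1 - (q : ℂ)) ^ e)⁻¹ • ((G.map (Polynomial.eval q)).map (algebraMap ℚ ℂ))) *
        Vx (Hp (2 * m) (QB α)) ((t : ℝ) / c) * Pi α := by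
      rw [Matrix.smul_mul, ← h1, smul_smul, inv_mul_cancel₀ hq2, one_smul, Matrix.mul_assoc, Pi_mul hα, Matrix.mul_one]
    have h3 : (((1 - q) ^ e)⁻¹ • G.map (Polynomial.eval q)).map (algebraMap ℚ ℂ) =
        ((1 - (q : ℂ)) ^ e)⁻¹ • ((G.map (Polynomial.eval q)).map (algebraMap ℚ ℂ)) := by
      ext i j
      simp only [Matrix.map_apply, Matrix.smul_apply, smul_eq_mul, map_mul, map_inv₀, map_pow, map_sub, map_one]
      rfl
    rw [h3]
    unfold Ya
    rw [h2]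
    calc _ = (((1 - (q : ℂ)) ^ e)⁻¹ • ((G.map (Polynomial.eval q)).map (algebraMap ℚ ℂ))) *
        (Vx (Hp (2 * m) (QB α)) ((t : ℝ) / c) * (Pi α * E (cm (Am (2 * m))) (-((Real.log t : ℝ) : ℂ)))) := by
          simp only [Matrix.mul_assoc]
      _ = _ := by
          rw [Pi_comm]
          simp only [Matrix.mul_assoc]

/-- the conclusion for the period matrices -/
def BoundA (α : Fin m → ℚ) (c : ℕ) (Ω : Matrix (Fin (2 * m)) (Fin (2 * m)) ℂ) (G k δ D r : ℕ) (κ : ℝ) (M : ℕ) : Prop :=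
  ∀ t : Fin k → ℕ, (∀ l, M ≤ t l ∧ (t l : ℝ) ≤ M + (M : ℝ) ^ κ) → (∀ l l', l ≠ l' → (G : ℤ) ≤ |(t l : ℤ) - t l'|) →
    ∀ (K : IntermediateField ℚ ℂ) [FiniteDimensional ℚ K], finrank ℚ K ≤ D →
      ∀ R S : Fin k → (Matrix (Fin (2 * m)) (Fin (2 * m)) K)ˣ,
        TrdegGe r δ K (fun l => ((Real.log (t l) : ℝ) : ℂ)) fun l =>
          (R l : Matrix (Fin (2 * m)) (Fin (2 * m)) K).map (algebraMap K ℂ) * (Ya α c (t l) * Ω) *
            (S l : Matrix (Fin (2 * m)) (Fin (2 * m)) K).map (algebraMap K ℂ)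

lemma Bound.toA {α : Fin m → ℚ} (hQ : QD (2 * m) (QB α)) (hα : ∀ j, α j ≠ 0) {c : ℕ} (hc : 1 ≤ c) :
    ∃ t₀ : ℕ, c < t₀ ∧ ∀ (Ω : Matrix (Fin (2 * m)) (Fin (2 * m)) ℂ) (G k δ D r : ℕ) (κ : ℝ) (M : ℕ), t₀ ≤ M →
      Bound (Pi α * Ω).transpose (Nz (2 * m)) (Zc (2 * m) (QB α) c) G k δ D r κ M → BoundA α c Ω G k δ D r κ M := by
  classical
  obtain ⟨t₀, htc, ht₀⟩ := gauge_Ya hQ hα c hc
  refine ⟨t₀, htc, fun Ω G k δ D r κ M hM hB t ht hsep K _ hK R S => ?_⟩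
  have hex : ∀ l, ∃ Γ : Matrix (Fin (2 * m)) (Fin (2 * m)) ℚ, IsUnit Γ ∧
      Ya α c (t l) = Γ.map (algebraMap ℚ ℂ) *
        (Vx (Hp (2 * m) (QB α)) ((t l : ℝ) / c) * E (cm (Am (2 * m))) (-((Real.log (t l) : ℝ) : ℂ)) * Pi α) := fun l =>
    ht₀ (t l) (hM.trans (ht l).1)
  choose Γ hΓ hY using hex
  -- the units
  have hu : ∀ l, IsUnit ((R l : Matrix (Fin (2 * m)) (Fin (2 * m)) K) * (Γ l).map (algebraMap ℚ K)).transpose := by
    intro l
    rw [Matrix.isUnit_transpose]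
    refine (R l).isUnit.mul ?_
    exact (hΓ l).map (RingHom.mapMatrix (algebraMap ℚ K))
  have hv : ∀ l, IsUnit ((S l : Matrix (Fin (2 * m)) (Fin (2 * m)) K)).transpose := by
    intro l
    rw [Matrix.isUnit_transpose]
    exact (S l).isUnit
  have h1 := hB t ht hsep K hK (fun l => (hv l).unit) (fun l => (hu l).unit)
  refine TrdegGe.transpose ?_
  convert h1 using 2 with l
  have ht1 : 1 ≤ t l := by
    have := (ht l).1
    omega
  rw [periods_eq _ c (t l) hc ht1]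
  rw [IsUnit.unit_spec, IsUnit.unit_spec, hY l]
  have h2 : ((Γ l).map (algebraMap ℚ K)).map (algebraMap K ℂ) = (Γ l).map (algebraMap ℚ ℂ) := by
    ext i j
    simp only [Matrix.map_apply]
    rfl
  rw [Matrix.transpose_map, Matrix.transpose_map, Matrix.map_mul, h2]
  simp only [Matrix.transpose_mul, Matrix.mul_assoc]

end Pool.Agent.P8H40.HA
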