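import Pool.Agent.P8H40.HA.Resc

/-!
# Contiguity: the operators `θ^n - z ∏ (θ + α_j) (θ + 1 - α_j)`

`H` is the holomorphic part for the polynomial `Q`. The row of `f(θ)` applied to the Frobenius solutions is a combination
of the rows of `H` with coefficients in `ℚ[z, 1 / (1 - z)]`.
-/

set_option autoImplicit false

open PowerSeries Pool.Agent.Y113

namespace Pool.Agent.P8H40.HA

open Pool.Agent.Y119.HY (QD Am Jm cm E kx aq hq Hq hps Hf Hc Yf coeff_kx_mul mul_Am)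
open Pool.Agent.Y119.HZ (Hp Wp hf ix evq km km_apply th ode_Hp coeff_X_deriv)

variable {n : ℕ} {Q : Polynomial ℚ}

/-- the row of `f(θ)` -/
noncomputable def rr (n : ℕ) (Q f : Polynomial ℚ) (j : Fin n) : ℚ⟦X⟧ :=
  PowerSeries.mk fun k => coeff (j : ℕ) (Polynomial.aeval (kx k) f * aq n Q k)

lemma rr_add (f g : Polynomial ℚ) (j : Fin n) : rr n Q (f + g) j = rr n Q f j + rr n Q g j := by
  ext k
  unfold rr
  rw [map_add, coeff_mk, coeff_mk, coeff_mk, map_add, add_mul, map_add]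

lemma rr_C_mul (a : ℚ) (f : Polynomial ℚ) (j : Fin n) : rr n Q (Polynomial.C a * f) j = C a * rr n Q f j := by
  ext k
  unfold rr
  rw [coeff_C_mul, coeff_mk, coeff_mk, map_mul (Polynomial.aeval (kx k)), Polynomial.aeval_C, mul_assoc]
  have h1 : (algebraMap ℚ ℚ⟦X⟧) a = C a := by
    rw [PowerSeries.algebraMap_apply]
    rfl
  rw [h1, coeff_C_mul]

lemma rr_pow (i j : Fin n) : rr n Q (Polynomial.X ^ (i : ℕ)) j = Hp n Q i j := by
  ext k
  unfold rr Hp hps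
  rw [coeff_mk, Matrix.of_apply, coeff_mk, map_pow, Polynomial.aeval_X]
  rfl

/-- the connection -/
noncomputable def nab (v : Fin n → ℚ⟦X⟧) (j : Fin n) : ℚ⟦X⟧ := X * d⁄dX ℚ (v j) + ∑ l, v l * C (Am n l j)

lemma nab_rr (f : Polynomial ℚ) (j : Fin n) : nab (rr n Q f) j = rr n Q (Polynomial.X * f) j := by
  ext k
  have h1 : coeff k (∑ l, rr n Q f l * C (Am n l j)) =
      if h : (j : ℕ) = 0 then 0 else coeff ((j : ℕ) - 1) (Polynomial.aeval (kx k) f * aq n Q k) := by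
    rw [map_sum]
    have h2 : ∀ l, coeff k (rr n Q f l * C (Am n l j)) = coeff (l : ℕ) (Polynomial.aeval (kx k) f * aq n Q k) * Am n l j := by
      intro l
      rw [mul_comm, coeff_C_mul, mul_comm]
      unfold rr
      rw [coeff_mk]
    simp only [h2]
    have h3 := mul_Am (n := n) (Matrix.of fun _ l : Fin n => coeff (l : ℕ) (Polynomial.aeval (kx k) f * aq n Q k)) j j
    rw [Matrix.mul_apply] at h3
    simp only [Matrix.of_apply] at h3
    exact h3
  unfold nab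
  rw [map_add, coeff_X_deriv, h1]
  unfold rr
  rw [coeff_mk, coeff_mk, map_mul (Polynomial.aeval (kx k)), Polynomial.aeval_X, mul_assoc, coeff_kx_mul]
  congr 1

/-- combinations of the rows of `H` with coefficients in `ℚ[z, 1 / (1 - z)]` -/
def Md (n : ℕ) (Q : Polynomial ℚ) (v : Fin n → ℚ⟦X⟧) : Prop :=
  ∃ (e : ℕ) (g : Fin n → Polynomial ℚ), ∀ j, (1 - X : ℚ⟦X⟧) ^ e * v j = ∑ l, (g l : ℚ⟦X⟧) * Hp n Q l j

lemma coe_sub : ((1 - Polynomial.X : Polynomial ℚ) : ℚ⟦X⟧) = 1 - X := by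
  rw [Polynomial.coe_sub, Polynomial.coe_one, Polynomial.coe_X]

/-- higher exponents -/
lemma Md.raise {v : Fin n → ℚ⟦X⟧} {e : ℕ} {g : Fin n → Polynomial ℚ}
    (h : ∀ j, (1 - X : ℚ⟦X⟧) ^ e * v j = ∑ l, (g l : ℚ⟦X⟧) * Hp n Q l j) {e' : ℕ} (he : e ≤ e') (j : Fin n) :
    (1 - X : ℚ⟦X⟧) ^ e' * v j = ∑ l, (((1 - Polynomial.X) ^ (e' - e) * g l : Polynomial ℚ) : ℚ⟦X⟧) * Hp n Q l j := by
  have h1 : (1 - X : ℚ⟦X⟧) ^ e' = (1 - X) ^ (e' - e) * (1 - X) ^ e := by rw [← pow_add, Nat.sub_add_cancel he]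
  rw [h1, mul_assoc, h, Finset.mul_sum]
  refine Finset.sum_congr rfl fun l _ => ?_
  rw [Polynomial.coe_mul, Polynomial.coe_pow, coe_sub, mul_assoc]

lemma Md.add {v w : Fin n → ℚ⟦X⟧} (hv : Md n Q v) (hw : Md n Q w) : Md n Q (fun j => v j + w j) := by
  obtain ⟨e, g, h⟩ := hv
  obtain ⟨e', g', h'⟩ := hw
  refine ⟨max e e', fun l => (1 - Polynomial.X) ^ (max e e' - e) * g l + (1 - Polynomial.X) ^ (max e e' - e') * g' l, fun j => ?_⟩
  rw [mul_add, Md.raise h (le_max_left e e'), Md.raise h' (le_max_right e e'), ← Finset.sum_add_distrib]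
  refine Finset.sum_congr rfl fun l _ => ?_
  rw [Polynomial.coe_add, add_mul]

lemma Md.smul (a : ℚ) {v : Fin n → ℚ⟦X⟧} (hv : Md n Q v) : Md n Q (fun j => C a * v j) := by
  obtain ⟨e, g, h⟩ := hv
  refine ⟨e, fun l => Polynomial.C a * g l, fun j => ?_⟩
  rw [mul_left_comm, h, Finset.mul_sum]
  refine Finset.sum_congr rfl fun l _ => ?_
  rw [Polynomial.coe_mul, Polynomial.coe_C, mul_assoc]

lemma deriv_pow (e : ℕ) : (1 - X : ℚ⟦X⟧) * (X * d⁄dX ℚ ((1 - X : ℚ⟦X⟧) ^ e)) = -((e : ℚ⟦X⟧) * X * (1 - X) ^ e) := by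
  have h0 : d⁄dX ℚ (1 - X : ℚ⟦X⟧) = -1 := by
    rw [map_sub, PowerSeries.derivative_X]
    have : d⁄dX ℚ (1 : ℚ⟦X⟧) = 0 := Derivation.map_one_eq_zero _
    rw [this, zero_sub]
  induction e with
  | zero =>
    rw [pow_zero, Derivation.map_one_eq_zero]
    simp
  | succ e ih =>
    rw [pow_succ, Derivation.leibniz, h0]
    simp only [smul_eq_mul]
    push_cast
    linear_combination (1 - X : ℚ⟦X⟧) * ih

lemma Md.nab (hQ : QD n Q) {v : Fin n → ℚ⟦X⟧} (hv : Md n Q v) : Md n Q (HA.nab v) := by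
  obtain ⟨e, g, h⟩ := hv
  refine ⟨e + 1, fun k => (1 - Polynomial.X) * (Polynomial.X * Polynomial.derivative (g k)) +
    ∑ l, g l * ((1 - Polynomial.X) * Polynomial.C (Am n l k) + Polynomial.X * Polynomial.C (Pool.Agent.Y119.HY.Bm n Q l k)) +
    Polynomial.C (e : ℚ) * Polynomial.X * g k, fun j => ?_⟩
  -- the derivative of `w = (1 - X)^e v`
  have h1 : (1 - X : ℚ⟦X⟧) * (X * d⁄dX ℚ ((1 - X : ℚ⟦X⟧) ^ e * v j)) =
      (1 - X) ^ (e + 1) * (X * d⁄dX ℚ (v j)) - (e : ℚ⟦X⟧) * X * ((1 - X) ^ e * v j) := by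
    rw [Derivation.leibniz]
    simp only [smul_eq_mul]
    linear_combination v j * deriv_pow e
  have h2 : (1 - X : ℚ⟦X⟧) ^ (e + 1) * HA.nab v j =
      (1 - X) * (X * d⁄dX ℚ ((1 - X : ℚ⟦X⟧) ^ e * v j) + ∑ l, ((1 - X : ℚ⟦X⟧) ^ e * v l) * C (Am n l j)) +
        (e : ℚ⟦X⟧) * X * ((1 - X) ^ e * v j) := by
    unfold HA.nab
    have h3 : ∑ l, ((1 - X : ℚ⟦X⟧) ^ e * v l) * C (Am n l j) = (1 - X : ℚ⟦X⟧) ^ e * ∑ l, v l * C (Am n l j) := by
      rw [Finset.mul_sum]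
      exact Finset.sum_congr rfl fun l _ => by ring
    rw [h3, mul_add (1 - X : ℚ⟦X⟧), h1]
    ring
  -- the rows of `H`
  have hode : ∀ l j, (1 - X : ℚ⟦X⟧) * (X * d⁄dX ℚ (Hp n Q l j) + ∑ k, Hp n Q l k * C (Am n k j)) =
      ∑ k, ((1 - X) * C (Am n l k) + X * C (Pool.Agent.Y119.HY.Bm n Q l k)) * Hp n Q k j := by
    intro l j
    have h3 := congrFun (congrFun (ode_Hp hQ) l) j
    rw [Matrix.smul_apply, Matrix.add_apply, Matrix.mul_apply, Matrix.mul_apply, smul_eq_mul] at h3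
    exact h3
  rw [h2, h j]
  simp only [h]
  have h4 : d⁄dX ℚ (∑ l, (g l : ℚ⟦X⟧) * Hp n Q l j) = ∑ l, ((Polynomial.derivative (g l) : Polynomial ℚ) : ℚ⟦X⟧) * Hp n Q l j +
      ∑ l, (g l : ℚ⟦X⟧) * d⁄dX ℚ (Hp n Q l j) := by
    rw [map_sum, ← Finset.sum_add_distrib]
    refine Finset.sum_congr rfl fun l _ => ?_
    rw [Derivation.leibniz]
    have h5 : d⁄dX ℚ (g l : ℚ⟦X⟧) = ((Polynomial.derivative (g l) : Polynomial ℚ) : ℚ⟦X⟧) := PowerSeries.derivative_coe _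
    rw [h5]
    simp only [smul_eq_mul]
    ring
  have h6 : ∑ l, (∑ m, (g m : ℚ⟦X⟧) * Hp n Q m l) * C (Am n l j) = ∑ m, (g m : ℚ⟦X⟧) * ∑ l, Hp n Q m l * C (Am n l j) := by
    simp only [Finset.sum_mul, Finset.mul_sum]
    rw [Finset.sum_comm]
    exact Finset.sum_congr rfl fun m _ => Finset.sum_congr rfl fun l _ => by ring
  rw [h4, h6]
  have h7 : (1 - X : ℚ⟦X⟧) * (X * (∑ l, ((Polynomial.derivative (g l) : Polynomial ℚ) : ℚ⟦X⟧) * Hp n Q l j +
      ∑ l, (g l : ℚ⟦X⟧) * d⁄dX ℚ (Hp n Q l j)) + ∑ m, (g m : ℚ⟦X⟧) * ∑ l, Hp n Q m l * C (Am n l j)) =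
      ∑ l, ((1 - X) * (X * ((Polynomial.derivative (g l) : Polynomial ℚ) : ℚ⟦X⟧))) * Hp n Q l j +
      ∑ l, (g l : ℚ⟦X⟧) * ((1 - X : ℚ⟦X⟧) * (X * d⁄dX ℚ (Hp n Q l j) + ∑ k, Hp n Q l k * C (Am n k j))) := by
    rw [← Finset.sum_add_distrib, ← Finset.sum_add_distrib, Finset.mul_sum, ← Finset.sum_add_distrib, Finset.mul_sum]
    exact Finset.sum_congr rfl fun l _ => by ring
  rw [h7]
  simp only [hode]
  have h8 : ∑ l, (g l : ℚ⟦X⟧) * ∑ k, ((1 - X) * C (Am n l k) + X * C (Pool.Agent.Y119.HY.Bm n Q l k)) * Hp n Q k j =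
      ∑ k, (∑ l, (g l : ℚ⟦X⟧) * ((1 - X) * C (Am n l k) + X * C (Pool.Agent.Y119.HY.Bm n Q l k))) * Hp n Q k j := by
    simp only [Finset.sum_mul, Finset.mul_sum]
    rw [Finset.sum_comm]
    exact Finset.sum_congr rfl fun m _ => Finset.sum_congr rfl fun l _ => by ring
  rw [h8, ← Finset.sum_add_distrib, Finset.mul_sum, ← Finset.sum_add_distrib]
  refine Finset.sum_congr rfl fun k _ => ?_
  have h9 : ((∑ l, g l * ((1 - Polynomial.X) * Polynomial.C (Am n l k) + Polynomial.X * Polynomial.C (Pool.Agent.Y119.HY.Bm n Q l k)) :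
      Polynomial ℚ) : ℚ⟦X⟧) = ∑ l, (g l : ℚ⟦X⟧) * ((1 - X) * C (Am n l k) + X * C (Pool.Agent.Y119.HY.Bm n Q l k)) := by
    have h10 := map_sum (Polynomial.coeToPowerSeries.ringHom (R := ℚ))
      (fun l => g l * ((1 - Polynomial.X) * Polynomial.C (Am n l k) + Polynomial.X * Polynomial.C (Pool.Agent.Y119.HY.Bm n Q l k))) Finset.univ
    simp only [Polynomial.coeToPowerSeries.ringHom_apply] at h10
    rw [h10]
    refine Finset.sum_congr rfl fun l _ => ?_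
    rw [Polynomial.coe_mul, Polynomial.coe_add, Polynomial.coe_mul, Polynomial.coe_mul, coe_sub, Polynomial.coe_X,
      Polynomial.coe_C, Polynomial.coe_C]
  rw [Polynomial.coe_add, Polynomial.coe_add, h9, Polynomial.coe_mul, Polynomial.coe_mul, Polynomial.coe_mul, coe_sub,
    Polynomial.coe_X, Polynomial.coe_mul, Polynomial.coe_C, Polynomial.coe_X]
  simp only [map_natCast]
  ring

/-- **all rows are combinations of the rows of `H`** -/
theorem Md_rr (hQ : QD n Q) (f : Polynomial ℚ) : Md n Q (rr n Q f) := by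
  have hpow : ∀ i : ℕ, Md n Q (rr n Q (Polynomial.X ^ i)) := by
    intro i
    induction i with
    | zero =>
      refine ⟨0, fun l => if (l : ℕ) = 0 then 1 else 0, fun j => ?_⟩
      have h2 := hQ.two
      rw [Finset.sum_eq_single (⟨0, by omega⟩ : Fin n)]
      · have h3 := rr_pow (Q := Q) (⟨0, by omega⟩ : Fin n) j
        simp only at h3
        rw [h3]
        simp
      · intro l _ hl
        show ((if (l : ℕ) = 0 then (1 : Polynomial ℚ) else 0 : Polynomial ℚ) : ℚ⟦X⟧) * _ = 0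
        rw [if_neg (fun h => hl (Fin.ext h)), Polynomial.coe_zero, zero_mul]
      · intro h
        exact absurd (Finset.mem_univ _) h
    | succ i ih =>
      have h1 := ih.nab hQ
      have h2 : HA.nab (rr n Q (Polynomial.X ^ i)) = rr n Q (Polynomial.X ^ (i + 1)) := by
        funext j
        rw [nab_rr, pow_succ']
      rwa [h2] at h1
  induction f using Polynomial.induction_on' with
  | add p q hp hq =>
    have h1 := hp.add hq
    have h2 : (fun j => rr n Q p j + rr n Q q j) = rr n Q (p + q) := by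
      funext j
      rw [rr_add]
    rwa [h2] at h1
  | monomial i a =>
    have h1 := (hpow i).smul a
    have h2 : (fun j => C a * rr n Q (Polynomial.X ^ i) j) = rr n Q (Polynomial.monomial i a) := by
      funext j
      rw [← rr_C_mul, Polynomial.C_mul_X_pow_eq_monomial]
    rwa [h2] at h1

end Pool.Agent.P8H40.HA
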