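import Pool.Agent.P8H40.HA.Ctg

/-!
# The holomorphic part for the operators `θ^(2m) - z ∏ (θ + α_j) (θ + 1 - α_j)`
-/

set_option autoImplicit false

open PowerSeries Pool.Agent.Y113

namespace Pool.Agent.P8H40.HA

open Pool.Agent.Y119.HY (QD Am Jm cm E kx aq hq Hq hps Hf Hc Yf coeff_kx_mul mul_Am QB)
open Pool.Agent.Y119.HZ (Hp Wp hf ix evq km km_apply th ode_Hp coeff_X_deriv)

/-! ### Toeplitz matrices -/

section toeplitz

variable {n : ℕ}

/-- the matrix of the multiplication by `f` -/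
noncomputable def Pm (n : ℕ) (f : ℚ⟦X⟧) : Matrix (Fin n) (Fin n) ℚ :=
  Matrix.of fun i j => if (i : ℕ) ≤ j then coeff ((j : ℕ) - i) f else 0

lemma coeff_mul_fin (F f : ℚ⟦X⟧) (j : Fin n) : ∑ l : Fin n, coeff (l : ℕ) F * Pm n f l j = coeff (j : ℕ) (F * f) := by
  rw [PowerSeries.coeff_mul, Finset.Nat.sum_antidiagonal_eq_sum_range_succ (fun a b => coeff a F * coeff b f)]
  unfold Pm
  simp only [Matrix.of_apply]
  rw [← Fin.sum_univ_eq_sum_range (fun l => coeff l F * coeff ((j : ℕ) - l) f) ((j : ℕ) + 1)]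
  rw [Fin.sum_univ_eq_sum_range (fun l => coeff l F * coeff ((j : ℕ) - l) f) ((j : ℕ) + 1)]
  have h1 : ∑ l : Fin n, coeff (l : ℕ) F * (if (l : ℕ) ≤ j then coeff ((j : ℕ) - l) f else 0) =
      ∑ l ∈ Finset.range n, coeff l F * (if l ≤ (j : ℕ) then coeff ((j : ℕ) - l) f else 0) :=
    Fin.sum_univ_eq_sum_range (fun l => coeff l F * (if l ≤ (j : ℕ) then coeff ((j : ℕ) - l) f else 0)) n
  rw [h1]
  symm
  have h2 : Finset.range ((j : ℕ) + 1) ⊆ Finset.range n := by
    intro l hl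
    rw [Finset.mem_range] at hl ⊢
    have := j.2
    omega
  rw [← Finset.sum_subset h2]
  · refine Finset.sum_congr rfl fun l hl => ?_
    rw [Finset.mem_range] at hl
    rw [if_pos (by omega)]
  · intro l _ hl
    rw [Finset.mem_range] at hl
    rw [if_neg (by omega), mul_zero]

lemma coeff_X_pow_mul_fin (i j : Fin n) (f : ℚ⟦X⟧) : Pm n f i j = coeff (j : ℕ) (X ^ (i : ℕ) * f) := by
  rw [PowerSeries.coeff_X_pow_mul']
  rfl

lemma Pm_mul (f g : ℚ⟦X⟧) : Pm n f * Pm n g = Pm n (f * g) := by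
  ext i j
  rw [Matrix.mul_apply]
  simp only [coeff_X_pow_mul_fin i]
  rw [coeff_mul_fin, mul_assoc]

lemma Pm_one : Pm n 1 = 1 := by
  ext i j
  rw [coeff_X_pow_mul_fin, mul_one, PowerSeries.coeff_X_pow, Matrix.one_apply]
  by_cases h : i = j
  · rw [if_pos h, if_pos (by rw [h])]
  · rw [if_neg h, if_neg fun h' => h (Fin.ext h'.symm)]

lemma Pm_X : Pm n X = Am n := by
  ext i j
  rw [coeff_X_pow_mul_fin, ← pow_succ, PowerSeries.coeff_X_pow]
  rfl

lemma Pm_comm (f : ℚ⟦X⟧) : Pm n f * Am n = Am n * Pm n f := by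
  rw [← Pm_X, Pm_mul, Pm_mul, mul_comm]

end toeplitz

variable {m : ℕ}

/-- the coefficients of the Frobenius solution -/
noncomputable def ga (α : Fin m → ℚ) (k : ℕ) : ℚ⟦X⟧ :=
  ∏ l ∈ Finset.range k, ((∏ j, ((kx l + C (α j)) * (kx l + C (1 - α j)))) * ((kx (l + 1))⁻¹) ^ (2 * m))

/-- the gauge operator -/
noncomputable def Mp (α : Fin m → ℚ) : Polynomial ℚ := ∏ j, (Polynomial.X - Polynomial.C (α j))

/-- its value at `ε` -/
noncomputable def M0 (α : Fin m → ℚ) : ℚ⟦X⟧ := Polynomial.aeval (kx 0) (Mp α)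

lemma aeval_Mp (α : Fin m → ℚ) (k : ℕ) : Polynomial.aeval (kx k) (Mp α) = ∏ j, (kx k - C (α j)) := by
  unfold Mp
  rw [map_prod (Polynomial.aeval (R := ℚ) (kx k))]
  refine Finset.prod_congr rfl fun j _ => ?_
  rw [map_sub (Polynomial.aeval (R := ℚ) (kx k)), Polynomial.aeval_X, Polynomial.aeval_C, PowerSeries.algebraMap_apply]
  rfl

lemma kx_succ (k : ℕ) : kx (k + 1) = kx k + 1 := by
  unfold kx
  push_cast
  rw [map_add, map_one]
  ring

lemma ga_mul (α : Fin m → ℚ) (k : ℕ) : ga α k * M0 α = aq (2 * m) (QB α) k * Polynomial.aeval (kx k) (Mp α) := by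
  induction k with
  | zero =>
    unfold ga aq M0
    rw [Finset.prod_range_zero, Finset.prod_range_zero]
  | succ k ih =>
    have h1 : Polynomial.aeval (kx k) (Mp α) * (∏ j, ((kx k + C (α j)) * (kx k + C (1 - α j)))) =
        Polynomial.aeval (kx k) (QB α) * Polynomial.aeval (kx (k + 1)) (Mp α) := by
      have h2 : Polynomial.aeval (kx k) (QB α) = ∏ j, (kx k ^ 2 - C (α j) ^ 2) := by
        unfold QB
        rw [map_prod (Polynomial.aeval (R := ℚ) (kx k))]
        refine Finset.prod_congr rfl fun j _ => ?_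
        rw [map_sub (Polynomial.aeval (R := ℚ) (kx k)), map_pow (Polynomial.aeval (R := ℚ) (kx k)), Polynomial.aeval_X, Polynomial.aeval_C,
          PowerSeries.algebraMap_apply]
        have : C ((algebraMap ℚ ℚ) (α j ^ 2)) = (C (α j) : ℚ⟦X⟧) ^ 2 := by
          rw [Algebra.algebraMap_self, RingHom.id_apply, map_pow]
        rw [this]
      rw [aeval_Mp, aeval_Mp, h2, ← Finset.prod_mul_distrib, ← Finset.prod_mul_distrib]
      refine Finset.prod_congr rfl fun j _ => ?_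
      rw [kx_succ, map_sub, map_one]
      ring
    have h3 : ga α (k + 1) = ga α k * ((∏ j, ((kx k + C (α j)) * (kx k + C (1 - α j)))) * ((kx (k + 1))⁻¹) ^ (2 * m)) := by
      unfold ga
      rw [Finset.prod_range_succ]
    have h4 : aq (2 * m) (QB α) (k + 1) = aq (2 * m) (QB α) k *
        (Polynomial.aeval (kx k) (QB α) * ((kx (k + 1))⁻¹) ^ (2 * m)) := by
      unfold aq
      rw [Finset.prod_range_succ]
    rw [h3, h4]
    linear_combination ((∏ j, ((kx k + C (α j)) * (kx k + C (1 - α j)))) * ((kx (k + 1))⁻¹) ^ (2 * m)) * ih +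
      aq (2 * m) (QB α) k * ((kx (k + 1))⁻¹) ^ (2 * m) * h1

/-- the holomorphic part -/
noncomputable def Ha (α : Fin m → ℚ) : Matrix (Fin (2 * m)) (Fin (2 * m)) ℚ⟦X⟧ :=
  Matrix.of fun i j => PowerSeries.mk fun k => coeff (j : ℕ) (kx k ^ (i : ℕ) * ga α k)

lemma Ha_mul (α : Fin m → ℚ) (i j : Fin (2 * m)) :
    ∑ l, Ha α i l * C (Pm (2 * m) (M0 α) l j) = rr (2 * m) (QB α) (Polynomial.X ^ (i : ℕ) * Mp α) j := by
  ext k
  rw [map_sum]
  have h1 : ∀ l, coeff k (Ha α i l * C (Pm (2 * m) (M0 α) l j)) =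
      coeff (l : ℕ) (kx k ^ (i : ℕ) * ga α k) * Pm (2 * m) (M0 α) l j := by
    intro l
    rw [mul_comm, coeff_C_mul, mul_comm]
    unfold Ha
    rw [Matrix.of_apply, coeff_mk]
  simp only [h1]
  rw [coeff_mul_fin]
  unfold rr
  rw [coeff_mk, mul_assoc, ga_mul, map_mul (Polynomial.aeval (R := ℚ) (kx k)), map_pow (Polynomial.aeval (R := ℚ) (kx k)), Polynomial.aeval_X]
  congr 1
  ring

lemma coeff_zero_Ha (α : Fin m → ℚ) (i j : Fin (2 * m)) : coeff 0 (Ha α i j) = if i = j then 1 else 0 := by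
  unfold Ha ga kx
  rw [Matrix.of_apply, coeff_mk, Finset.prod_range_zero, mul_one, Nat.cast_zero, map_zero, zero_add, PowerSeries.coeff_X_pow]
  by_cases h : i = j
  · rw [if_pos h, if_pos (by rw [h])]
  · rw [if_neg h, if_neg fun h' => h (Fin.ext h'.symm)]

lemma M0_ne (α : Fin m → ℚ) (hα : ∀ j, α j ≠ 0) : constantCoeff (M0 α) ≠ 0 := by
  unfold M0
  rw [aeval_Mp, map_prod]
  refine Finset.prod_ne_zero_iff.2 fun j _ => ?_
  unfold kx
  simp only [Nat.cast_zero, map_zero, zero_add, map_sub, constantCoeff_X, constantCoeff_C, zero_sub]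
  exact neg_ne_zero.2 (hα j)

lemma Pm_inv (α : Fin m → ℚ) (hα : ∀ j, α j ≠ 0) : Pm (2 * m) (M0 α) * Pm (2 * m) (M0 α)⁻¹ = 1 := by
  rw [Pm_mul, PowerSeries.mul_inv_cancel _ (M0_ne α hα), Pm_one]

/-- **the gauge transformation** -/
theorem gauge (α : Fin m → ℚ) (hQ : QD (2 * m) (QB α)) (hα : ∀ j, α j ≠ 0) :
    ∃ (e : ℕ) (G : Matrix (Fin (2 * m)) (Fin (2 * m)) (Polynomial ℚ)),
      (∀ i j, (1 - X : ℚ⟦X⟧) ^ e * (∑ l, Ha α i l * C (Pm (2 * m) (M0 α) l j)) =
        ∑ l, (G i l : ℚ⟦X⟧) * Hp (2 * m) (QB α) l j) ∧ Polynomial.eval 0 G.det ≠ 0 := by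
  choose e g hg using fun i : Fin (2 * m) => Md_rr hQ (Polynomial.X ^ (i : ℕ) * Mp α)
  have hle : ∀ i, e i ≤ ∑ i, e i := fun i => Finset.single_le_sum (f := e) (fun _ _ => Nat.zero_le _) (Finset.mem_univ i)
  refine ⟨∑ i, e i, Matrix.of fun i l => (1 - Polynomial.X) ^ ((∑ i, e i) - e i) * g i l, fun i j => ?_, ?_⟩
  · rw [Ha_mul, Md.raise (hg i) (hle i) j]
    rfl
  · set G : Matrix (Fin (2 * m)) (Fin (2 * m)) (Polynomial ℚ) :=
      Matrix.of fun i l => (1 - Polynomial.X) ^ ((∑ i, e i) - e i) * g i l with hG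
    have h1 : ∀ i j, (1 - X : ℚ⟦X⟧) ^ (∑ i, e i) * (∑ l, Ha α i l * C (Pm (2 * m) (M0 α) l j)) =
        ∑ l, (G i l : ℚ⟦X⟧) * Hp (2 * m) (QB α) l j := by
      intro i j
      rw [Ha_mul, Md.raise (hg i) (hle i) j]
      rfl
    have h2 : G.map (Polynomial.eval 0) = Pm (2 * m) (M0 α) := by
      ext i j
      have h3 := congrArg (constantCoeff (R := ℚ)) (h1 i j)
      rw [map_mul, map_pow, map_sub, map_one, constantCoeff_X, sub_zero, one_pow, one_mul, map_sum, map_sum] at h3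
      have h4 : ∀ l, constantCoeff (Ha α i l * C (Pm (2 * m) (M0 α) l j)) = (if i = l then 1 else 0) * Pm (2 * m) (M0 α) l j := by
        intro l
        rw [map_mul, constantCoeff_C, ← coeff_zero_eq_constantCoeff_apply, coeff_zero_Ha]
      have h5 : ∀ l, constantCoeff ((G i l : ℚ⟦X⟧) * Hp (2 * m) (QB α) l j) = Polynomial.eval 0 (G i l) * (if l = j then 1 else 0) := by
        intro l
        have h6 : coeff 0 (Hp (2 * m) (QB α) l j) = Hq (2 * m) (QB α) 0 l j :=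
          congrFun (congrFun (Pool.Agent.Y119.HZ.cf_Hp (Q := QB α) 0) l) j
        rw [map_mul, ← coeff_zero_eq_constantCoeff_apply (Hp (2 * m) (QB α) l j), h6, Pool.Agent.Y119.HY.Hq_zero,
          Matrix.one_apply, Polynomial.constantCoeff_coe, Polynomial.coeff_zero_eq_eval_zero]
      simp only [h4, h5] at h3
      rw [Matrix.map_apply]
      simpa using h3.symm
    have h7 : Polynomial.eval 0 G.det = (G.map (Polynomial.eval 0)).det := by
      have := RingHom.map_det (Polynomial.evalRingHom (0 : ℚ)) G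
      exact this
    rw [h7, h2]
    intro h8
    have h9 := congrArg Matrix.det (Pm_inv α hα)
    rw [Matrix.det_mul, h8, zero_mul, Matrix.det_one] at h9
    exact zero_ne_one h9

end Pool.Agent.P8H40.HA
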