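import Pool.Agent.P8H40.HA.Val
import Pool.Agent.Results.MP_cbf1af_ag.AllTuplesDegenerating

/-!
# All tuples: the symmetric parameters
-/

set_option autoImplicit false

open PowerSeries Module

namespace Pool.Agent.P8H40.HA

open Pool.Agent.Y113 (ps ev SDc)
open Pool.Agent.Y119.HY (QD Am Jm cm E QB)
open Pool.Agent.Y119.HZ (Hp Wp T1 A1 SDc_Wp ode_int exists_b mul_Wp)
open Pool.Agent.Results.MP_cbf1af_ag.AllTuplesDegenerating (toQ GCond val periods rank TrdegGe Bound)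

variable {n : ℕ} {Q : Polynomial ℚ}

/-- the residue -/
def Nz (n : ℕ) : Matrix (Fin n) (Fin n) ℤ := Matrix.of fun i j => if (i : ℕ) = j + 1 then 1 else 0

lemma Nz_map (n : ℕ) : (Nz n).map (Int.castRingHom ℚ) = (Am n).transpose := by
  ext i j
  unfold Nz Am
  rw [Matrix.map_apply, Matrix.of_apply, Matrix.transpose_apply, Matrix.of_apply]
  split_ifs <;> simp

lemma Nz_nil (n : ℕ) : Nz n ^ n = 0 := by
  have h1 : (Nz n ^ n).map (Int.castRingHom ℚ) = 0 := by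
    have h2 := map_pow (RingHom.mapMatrix (Int.castRingHom ℚ)) (Nz n) n
    have h3 : (Nz n ^ n).map (Int.castRingHom ℚ) = ((Nz n).map (Int.castRingHom ℚ)) ^ n := h2
    rw [h3, Nz_map, ← Matrix.transpose_pow, Pool.Agent.Y119.HY.Am_nil, Matrix.transpose_zero]
  ext i j
  have h2 := congrFun (congrFun h1 i) j
  rw [Matrix.map_apply, eq_intCast, Matrix.zero_apply] at h2
  rw [Matrix.zero_apply]
  exact_mod_cast h2

lemma sdc_gcond {f : ℚ⟦X⟧} (h : SDc f) : GCond f := by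
  obtain ⟨a, h1, h2⟩ := h
  exact ⟨2 ^ a, h1, h2⟩

lemma gcond_rescale {f : ℚ⟦X⟧} (h : GCond f) (c : ℕ) (hc : 1 ≤ c) : GCond (rescale (c : ℚ) f) := by
  obtain ⟨C, h1, h2⟩ := h
  have hC : 1 ≤ C := by
    obtain ⟨d, hd0, hd, -⟩ := h2 0
    have : (1 : ℝ) ≤ d := by exact_mod_cast hd0
    simpa using this.trans hd
  have hc' : (1 : ℝ) ≤ c := by exact_mod_cast hc
  refine ⟨C * c, fun m => ?_, fun m => ?_⟩
  · rw [coeff_rescale]
    push_cast
    rw [abs_mul, abs_of_nonneg (by positivity)]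
    calc (c : ℝ) ^ m * |((coeff m f : ℚ) : ℝ)| ≤ (c : ℝ) ^ (m + 1) * C ^ (m + 1) :=
          mul_le_mul (pow_le_pow_right₀ hc' (Nat.le_succ m)) (h1 m) (abs_nonneg _) (by positivity)
      _ = (C * c) ^ (m + 1) := by rw [mul_pow, mul_comm]
  · obtain ⟨d, hd0, hd, hd'⟩ := h2 m
    refine ⟨d, hd0, hd.trans (pow_le_pow_left₀ (by linarith) ?_ _), fun j hj => ?_⟩
    · nlinarith
    · obtain ⟨a, ha⟩ := hd' j hj
      refine ⟨(c : ℤ) ^ j * a, ?_⟩
      rw [coeff_rescale]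
      push_cast
      rw [← ha]
      ring

/-- the system in the variable `x = z / c`, transposed -/
noncomputable def Zc (n : ℕ) (Q : Polynomial ℚ) (c : ℕ) : Matrix (Fin n) (Fin n) ℚ⟦X⟧ :=
  Matrix.of fun i j => rescale (c : ℚ) (Hp n Q j i)

/-- the inverse -/
noncomputable def Wc (n : ℕ) (Q : Polynomial ℚ) (c : ℕ) : Matrix (Fin n) (Fin n) ℚ⟦X⟧ :=
  Matrix.of fun i j => rescale (c : ℚ) (Wp n Q j i)

lemma Wc_mul (hQ : QD n Q) (c : ℕ) : Wc n Q c * Zc n Q c = 1 := by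
  ext1 i j
  have h1 := congrFun (congrFun (mul_Wp hQ) j) i
  rw [Matrix.mul_apply, Matrix.one_apply] at h1
  rw [Matrix.mul_apply, Matrix.one_apply]
  unfold Wc Zc
  simp only [Matrix.of_apply, ← map_mul]
  rw [← map_sum]
  have h2 : ∑ k, Wp n Q k i * Hp n Q j k = ∑ k, Hp n Q j k * Wp n Q k i := Finset.sum_congr rfl fun k _ => mul_comm _ _
  rw [h2, h1]
  by_cases h : i = j
  · rw [if_pos h, if_pos h.symm, map_one]
  · rw [if_neg h, if_neg fun h' => h h'.symm, map_zero]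

lemma coeff_zero_Zc (c : ℕ) (i j : Fin n) : coeff 0 (Zc n Q c i j) = if i = j then 1 else 0 := by
  unfold Zc
  rw [Matrix.of_apply, coeff_rescale, pow_zero, one_mul]
  have h6 : coeff 0 (Hp n Q j i) = Pool.Agent.Y119.HY.Hq n Q 0 j i :=
    congrFun (congrFun (Pool.Agent.Y119.HZ.cf_Hp (Q := Q) 0) j) i
  rw [h6, Pool.Agent.Y119.HY.Hq_zero, Matrix.one_apply]
  simp only [eq_comm]

lemma ode_Zc (hQ : QD n Q) {D : ℕ} {b : Fin n → Fin n → ℤ} (hb : ∀ i j, (b i j : ℚ) = D * Pool.Agent.Y119.HY.Bm n Q i j)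
    (c : ℕ) (i j : Fin n) : toQ (sc (c : ℤ) (T1 D)) * (X * PowerSeries.derivative ℚ (Zc n Q c i j) +
      ∑ k, C (Nz n i k : ℚ) * Zc n Q c k j) = ∑ k, Zc n Q c i k * toQ (sc (c : ℤ) (A1 n D b j k)) := by
  have h1 := congrArg (rescale (c : ℚ)) (ode_int hQ hb j i)
  have h2 : ∀ P : Polynomial ℤ, rescale (c : ℚ) (ps P) = toQ (sc (c : ℤ) P) := by
    intro P
    have := rescale_ps (c : ℤ) P
    push_cast at this
    exact this
  rw [map_mul, map_add, map_sum, map_sum, h2] at h1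
  simp only [map_mul (rescale (c : ℚ)), h2, rescale_C] at h1
  have h3 : rescale (c : ℚ) X * rescale (c : ℚ) (d⁄dX ℚ (Hp n Q j i)) = X * d⁄dX ℚ (rescale (c : ℚ) (Hp n Q j i)) := by
    rw [← map_mul, rescale_deriv]
  rw [h3] at h1
  unfold Zc
  simp only [Matrix.of_apply]
  refine Eq.trans ?_ (h1.trans ?_)
  · congr 2
    refine Finset.sum_congr rfl fun k _ => ?_
    have h4 : (Nz n i k : ℚ) = Am n k i := by
      have := congrFun (congrFun (Nz_map n) i) k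
      exact this
    rw [h4, mul_comm]
  · exact Finset.sum_congr rfl fun k _ => mul_comm _ _

lemma rank_le (hQ : QD n Q) {c : ℕ} (hc : 1 ≤ c) : n * (n + 1) / 2 ≤ rank (Zc n Q c) := by
  obtain ⟨T, hT⟩ := ind hQ
  have hc0 : (c : ℚ) ≠ 0 := by
    have : c ≠ 0 := by omega
    exact_mod_cast this
  refine le_csSup ⟨Fintype.card (Fin n × Fin n), ?_⟩ ⟨fun i => ((T i).2, (T i).1), ind_rescale hT hc0⟩
  rintro d ⟨T, hT⟩
  have h1 : Function.Injective T := by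
    intro i j hij
    exact hT.injective (by
      show Zc n Q c (T i).1 (T i).2 = Zc n Q c (T j).1 (T j).2
      rw [hij])
  simpa using Fintype.card_le_of_injective T h1

lemma TrdegGe.mono {k r r' δ : ℕ} (hr : r ≤ r') {K : IntermediateField ℚ ℂ} {L : Fin k → ℂ}
    {P : Fin k → Matrix (Fin n) (Fin n) ℂ} (h : TrdegGe r' δ K L P) : TrdegGe r δ K L P := by
  obtain ⟨σ, hσ, h⟩ := h
  refine ⟨fun i => σ (Fin.castLE hr i), fun i j hij => Fin.castLE_injective hr (hσ hij), fun R hR h0 => ?_⟩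
  have h1 := h (MvPolynomial.rename (Fin.castLE hr) R) (fun i => ?_) (by
    rw [MvPolynomial.aeval_rename]
    exact h0)
  · exact MvPolynomial.rename_injective _ (Fin.castLE_injective hr) (by rw [h1, map_zero])
  · by_cases hi : ∃ j, Fin.castLE hr j = i
    · obtain ⟨j, rfl⟩ := hi
      rw [MvPolynomial.degreeOf_rename_of_injective (Fin.castLE_injective hr)]
      exact hR j
    · have h2 : i ∉ (MvPolynomial.rename (Fin.castLE hr) R).vars := by
        intro h3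
        obtain ⟨j, -, hj⟩ := Finset.mem_image.1 (MvPolynomial.vars_rename _ _ h3)
        exact hi ⟨j, hj⟩
      have h3 : (MvPolynomial.rename (Fin.castLE hr) R).degreeOf i = 0 := by
        rw [MvPolynomial.degreeOf_def, Multiset.count_eq_zero]
        intro h4
        exact h2 (by rw [MvPolynomial.vars_def, Multiset.mem_toFinset]; exact h4)
      omega

lemma Bound.mono {Ω : Matrix (Fin n) (Fin n) ℂ} {N : Matrix (Fin n) (Fin n) ℤ} {Z : Matrix (Fin n) (Fin n) ℚ⟦X⟧}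
    {G k δ D r r' : ℕ} {c : ℝ} {M : ℕ} (hr : r ≤ r') (h : Bound Ω N Z G k δ D r' c M) : Bound Ω N Z G k δ D r c M :=
  fun m h1 h2 K _ h3 R S => TrdegGe.mono hr (h m h1 h2 K h3 R S)

/-- **all tuples, symmetric parameters** -/
theorem base_result (hQ : QD n Q) (hH : ∀ i j, SDc (Hp n Q i j)) (c : ℕ) (hc : 1 ≤ c) :
    ∃ G : ℕ, ∀ k δ D : ℕ,
      (∃ (κ : ℝ) (M₀ : ℕ), 0 < κ ∧ ∀ M : ℕ, M₀ ≤ M → ∀ Ω : Matrix (Fin n) (Fin n) ℂ, IsUnit Ω →
        Bound Ω (Nz n) (Zc n Q c) G k δ D ((k - 1) * (n * (n + 1) / 2 + 1)) κ M) ∧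
      ∀ Ω : Matrix (Fin n) (Fin n) ℂ, IsUnit Ω → ∀ (s : ℕ) (ω : Fin s → ℂ),
        (∀ i j, IsAlgebraic (Algebra.adjoin ℚ (Set.range ω)) (Ω i j)) →
        ∃ (κ : ℝ) (M₀ : ℕ), 0 < κ ∧ ∀ M : ℕ, M₀ ≤ M →
          Bound Ω (Nz n) (Zc n Q c) G k δ D (k * (n * (n + 1) / 2 + 1) - (s + 1)) κ M := by
  obtain ⟨D, b, hD, hb⟩ := exists_b n Q
  have hr := rank_le hQ hc
  have hT : sc (c : ℤ) (T1 D) ≠ 0 := by
    intro h0
    have h1 := congrArg (fun p => Polynomial.coeff p 0) h0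
    simp only [sc_coeff, pow_zero, mul_one, Polynomial.coeff_zero] at h1
    unfold T1 at h1
    rw [Polynomial.coeff_C_mul] at h1
    simp at h1
    exact hD h1
  obtain ⟨G, hG⟩ := Pool.Agent.Results.MP_cbf1af_ag.AllTuplesDegenerating.result n (sc (c : ℤ) (T1 D))
    (Matrix.of fun k j => sc (c : ℤ) (A1 n D b j k)) (Nz n) (Zc n Q c) (Wc n Q c) hT (Nz_nil n) (ode_Zc hQ hb c)
    (coeff_zero_Zc c) (Wc_mul hQ c) (fun i j => gcond_rescale (sdc_gcond (hH j i)) c hc)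
    (fun i j => gcond_rescale (sdc_gcond (SDc_Wp hH j i)) c hc)
  refine ⟨G, fun k δ D => ⟨?_, fun Ω hΩ s ω hω => ?_⟩⟩
  · obtain ⟨κ, M₀, hκ, h⟩ := (hG k δ D).1
    exact ⟨κ, M₀, hκ, fun M hM Ω hΩ => Bound.mono (Nat.mul_le_mul_left _ (by omega)) (h M hM Ω hΩ)⟩
  · obtain ⟨κ, M₀, hκ, h⟩ := (hG k δ D).2 Ω hΩ s ω hω
    exact ⟨κ, M₀, hκ, fun M hM => Bound.mono (Nat.sub_le_sub_right (Nat.mul_le_mul_left _ (by omega)) _) (h M hM)⟩

end Pool.Agent.P8H40.HA
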