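import Pool.Agent.P8H40.HA.Ind

/-!
# Rescaling the variable
-/

set_option autoImplicit false

open PowerSeries Pool.Agent.Y113

namespace Pool.Agent.P8H40.HA

/-- substitution `x ↦ c x` in polynomials -/
noncomputable def sc {R : Type*} [CommRing R] (c : R) : Polynomial R →+* Polynomial R :=
  Polynomial.compRingHom (Polynomial.C c * Polynomial.X)

lemma sc_coeff {R : Type*} [CommRing R] (c : R) (p : Polynomial R) (k : ℕ) : (sc c p).coeff k = p.coeff k * c ^ k := by
  unfold sc
  rw [Polynomial.coe_compRingHom_apply, Polynomial.comp_C_mul_X_coeff]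

lemma sc_inj {R : Type*} [Field R] {c : R} (hc : c ≠ 0) : Function.Injective (sc c) := by
  intro p q h
  ext k
  have h1 := congrArg (fun r => Polynomial.coeff r k) h
  simp only [sc_coeff] at h1
  exact mul_right_cancel₀ (pow_ne_zero k hc) h1

lemma rescale_coe (c : ℚ) (p : Polynomial ℚ) : rescale c (p : ℚ⟦X⟧) = ((sc c p : Polynomial ℚ) : ℚ⟦X⟧) := by
  ext k
  rw [coeff_rescale, Polynomial.coeff_coe, Polynomial.coeff_coe, sc_coeff, mul_comm]

lemma rescale_ps (c : ℤ) (p : Polynomial ℤ) : rescale (c : ℚ) (ps p) = ps (sc c p) := by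
  unfold ps
  rw [rescale_coe]
  congr 1
  ext k
  rw [sc_coeff, Polynomial.coeff_map, Polynomial.coeff_map, sc_coeff]
  simp

lemma rescale_rescale' {c : ℚ} (hc : c ≠ 0) (f : ℚ⟦X⟧) : rescale c⁻¹ (rescale c f) = f := by
  ext k
  rw [coeff_rescale, coeff_rescale, ← mul_assoc, ← mul_pow, inv_mul_cancel₀ hc, one_pow, one_mul]

/-- independence is preserved -/
theorem ind_rescale {ι : Type*} {h : ι → ℚ⟦X⟧} (hh : AlgebraicIndependent (Polynomial ℚ) h) {c : ℚ} (hc : c ≠ 0) :
    AlgebraicIndependent (Polynomial ℚ) fun i => rescale c (h i) := by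
  rw [algebraicIndependent_iff] at hh ⊢
  intro R hR
  have h1 : ∀ R : MvPolynomial ι (Polynomial ℚ), rescale c⁻¹ (MvPolynomial.aeval (fun i => rescale c (h i)) R) =
      MvPolynomial.aeval h (MvPolynomial.map (sc c⁻¹) R) := by
    intro R
    induction R using MvPolynomial.induction_on with
    | C p =>
      rw [MvPolynomial.map_C, MvPolynomial.aeval_C, MvPolynomial.aeval_C, PowerSeries.algebraMap_apply',
        PowerSeries.algebraMap_apply']
      simp only [Algebra.algebraMap_self, Polynomial.map_id, PowerSeries.map_id, RingHom.id_apply]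
      exact rescale_coe _ _
    | add p q hp hq => rw [map_add, map_add, hp, hq, map_add, map_add]
    | mul_X p i hp =>
      rw [map_mul, map_mul, hp, MvPolynomial.aeval_X, rescale_rescale' hc, map_mul, map_mul, MvPolynomial.map_X,
        MvPolynomial.aeval_X]
  have h2 := h1 R
  rw [hR, map_zero] at h2
  have h3 := hh _ h2.symm
  exact (MvPolynomial.map_injective (sc c⁻¹) (sc_inj (inv_ne_zero hc))) (by rw [h3, map_zero])

/-- the operator `x d/dx` -/
lemma rescale_deriv (c : ℚ) (f : ℚ⟦X⟧) : rescale c (X * d⁄dX ℚ f) = X * d⁄dX ℚ (rescale c f) := by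
  ext k
  rw [coeff_rescale]
  rcases k with _ | k
  · simp
  · rw [PowerSeries.coeff_succ_X_mul, PowerSeries.coeff_succ_X_mul, PowerSeries.coeff_derivative,
      PowerSeries.coeff_derivative, coeff_rescale]
    ring

lemma rescale_C (c a : ℚ) : rescale c (C a) = (C a : ℚ⟦X⟧) := by
  ext k
  rw [coeff_rescale, PowerSeries.coeff_C]
  split_ifs with h
  · rw [h, pow_zero, one_mul]
  · rw [mul_zero]

end Pool.Agent.P8H40.HA
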